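import Mathlib
import Pool.Agent.TH994.DS.Basic

set_option autoImplicit false

namespace Pool.Agent.Results.MP_055c40_gt.OneFactor

open Pool.Agent.TH994.DS

universe u v

/-- **The product of two Delta-spaces is a Delta-space when one factor has nearly point-finite
neighbourhood assignments, e.g. is a countable union of scattered Eberlein compact subspaces.** -/
theorem result :
    -- (1) the product theorem (no compactness needed)
    (∀ (X : Type u) (Y : Type v) [TopologicalSpace X] [TopologicalSpace Y],
      NearlyPointFinite X → IsDelta Y → IsDelta (X × Y)) ∧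
    -- (2) the class of the first factors
    (∀ (X : Type u) [TopologicalSpace X], NearlyPointFinite X → IsDelta X) ∧
    (∀ (X : Type u) (Γ : Type v) [TopologicalSpace X] (e : X → Γ → Bool), Continuous e →
      Function.Injective e → (∀ x, {γ | e x γ = true}.Finite) → NearlyPointFinite X) ∧
    (∀ (X : Type u) [TopologicalSpace X] (F : ℕ → Set X), (∀ k, IsClosed (F k)) →
      (∀ x, ∃ k, x ∈ F k) → (∀ k, NearlyPointFinite (F k)) → NearlyPointFinite X) ∧
    (∀ (X : Type u) (I : Type v) [TopologicalSpace X] (O : I → Set X), (∀ i, IsOpen (O i)) →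
      (∀ x, ∃ i, x ∈ O i) → (∀ x, {i | x ∈ O i}.Finite) → (∀ i, NearlyPointFinite (O i)) →
      NearlyPointFinite X) ∧
    (∀ (X : Type u) (Y : Type v) [TopologicalSpace X] [TopologicalSpace Y] (f : X → Y),
      NearlyPointFinite Y → Continuous f → (∀ y, (f ⁻¹' {y}).Finite) → NearlyPointFinite X) ∧
    (∀ (X : Type u) (Y : Type v) [TopologicalSpace X] [TopologicalSpace Y],
      NearlyPointFinite X → NearlyPointFinite Y → NearlyPointFinite (X × Y)) ∧
    -- (3) the question when one factor is a countable union of scattered Eberlein compact spaces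
    (∀ (X₁ X₂ : Type u) [TopologicalSpace X₁] [TopologicalSpace X₂] [CompactSpace X₁] [T2Space X₁]
      [CompactSpace X₂] [T2Space X₂], IsDelta X₁ → IsDelta X₂ →
      (∃ F : ℕ → Set X₁, (∀ k, IsClosed (F k)) ∧ (∀ x, ∃ k, x ∈ F k) ∧
        ∀ k, ∃ (Γ : Type v) (e : F k → Γ → Bool), Continuous e ∧ Function.Injective e ∧
          ∀ x, {γ | e x γ = true}.Finite) →
      IsDelta (X₁ × X₂)) := by
  refine ⟨fun X Y _ _ hX hY => prod_delta hX hY, fun X _ hX => delta_of_npf hX,
    fun X Γ _ e he hi hf => npf_of_finite_support e he hi hf,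
    fun X _ F hF hcov h => npf_union F hF hcov h,
    fun X I _ O hO hcov hpf h => npf_cover O hO hcov hpf h,
    fun X Y _ _ f hY hf hfib => npf_comap hY f hf hfib,
    fun X Y _ _ hX hY => npf_prod hX hY, ?_⟩
  intro X₁ X₂ _ _ _ _ _ _ _ h2 ⟨F, hF, hcov, hE⟩
  refine prod_delta (npf_union F hF hcov (fun k => ?_)) h2
  obtain ⟨Γ, e, he, hi, hf⟩ := hE k
  exact npf_of_finite_support e he hi hf

end Pool.Agent.Results.MP_055c40_gt.OneFactor
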