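import Mathlib
import Pool.Agent.TH785.DP.Mart

/-!
# `MP_055c40_gt`, Q1: compact spaces of countable height under Martin's axiom

Under Martin's axiom for `κ` dense sets, if `X₁` is a compact space of cardinality at most `κ`
which, apart from a countable closed set, is locally countable and scattered of countable height,
then `X₁ × X₂` is a `Δ`-space for every `Δ`-space `X₂`; and Martin's axiom for any number of dense
sets fixed in advance can be forced without collapsing cardinals.

Definitions used in the statement.
* `IsDelta X`: `X` is a `Δ`-space.
* `HasPFN X`: every point `x` has a decreasing sequence `N x n` of open neighbourhoods such that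
  for every point `y` there is an `n` with `y ∈ N x n` for only finitely many `x`.
* `LocallyCountableCountableHeight X`: there is a rank function from `X` to a countable well-ordered
  set such that every point has a countable compact open neighbourhood all of whose other points
  have smaller rank.
* `MartinAxiomCard κ` (in `Pool.Agent.W684.FM.Ambient`) is the usual form of Martin's axiom for at
  most `κ` dense sets; `MartinFor Z` is an equivalent form for `#Z` dense sets and
  `MartinHolds P Z` is its literal translation into the forcing language of
  `Pool.Agent.Helper669.Forcing`.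
-/

set_option autoImplicit false

namespace Pool.Agent.Results.MP_055c40_gt.UnderMartin

open Cardinal Topology
open Pool.Agent.TH785.DP Pool.Agent.W684 Pool.Agent.W684.FM Pool.Agent.Helper669.Forcing

universe u v

/-- (1) Martin's axiom for any infinite number of dense sets can be forced, preserving cardinals,
and the forced form of the axiom is equivalent to the usual one. (2) Under Martin's axiom for `κ`
dense sets, for every compact space `X₁` with at most `κ` points and every countable closed `F`
such that the complement of `F` is locally countable and scattered of countable height, `X₁` is a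
`Δ`-space and so is `X₁ × X₂` for every `Δ`-space `X₂`. (3) More generally, under Martin's axiom
for `κ` dense sets every locally countable, locally compact Hausdorff space with at most `κ` points
and of countable height is a countable union of closed discrete subspaces. (4) In ZFC: if `X₁` is
compact, `F` is a countable closed subset and the complement of `F` has the property `HasPFN`, then
so has `X₁`, and `X₁ × X₂` is a `Δ`-space for every `Δ`-space `X₂`. -/
theorem result :
    (∀ Z : Type, ℵ₀ ≤ #Z →
      (∃ (P : Type) (_ : Preorder P), Nonempty P ∧ ∀ p : P,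
        p ∈ CardinalsPreserved.{0, 0} P ∧ p ∈ OmegaOnePreserved P ∧ p ∈ MartinHolds P Z) ∧
      (MartinFor Z ↔ MartinAxiomCard #Z)) ∧
    (∀ κ : Cardinal.{0}, ℵ₀ ≤ κ → MartinAxiomCard κ →
      ∀ (X₁ : Type) [TopologicalSpace X₁] [CompactSpace X₁] [T2Space X₁] (F : Set X₁),
        #X₁ ≤ κ → F.Countable → IsClosed F → LocallyCountableCountableHeight (Fᶜ : Set X₁) →
        IsDelta X₁ ∧ ∀ (X₂ : Type v) [TopologicalSpace X₂], IsDelta X₂ → IsDelta (X₁ × X₂)) ∧
    (∀ κ : Cardinal.{0}, ℵ₀ ≤ κ → MartinAxiomCard κ →
      ∀ (X : Type) [TopologicalSpace X] [T2Space X], #X ≤ κ →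
        LocallyCountableCountableHeight X →
        ∃ C : ℕ → Set X, (∀ k, ∀ s ⊆ C k, IsClosed s) ∧ (⋃ k, C k) = Set.univ) ∧
    (∀ (X₁ : Type u) [TopologicalSpace X₁] [CompactSpace X₁] [T2Space X₁] (F : Set X₁),
      F.Countable → IsClosed F → HasPFN (Fᶜ : Set X₁) →
      HasPFN X₁ ∧ ∀ (X₂ : Type v) [TopologicalSpace X₂], IsDelta X₂ → IsDelta (X₁ × X₂)) := by
  refine ⟨fun Z hZ => ?_, ?_, ?_, ?_⟩
  · haveI : Infinite Z := Cardinal.infinite_iff.2 hZ
    exact ⟨exists_forcing Z, martinFor_iff⟩
  · intro κ hκ hMA X₁ _ _ _ F hX hF hFc hh
    have h1 : HasPFN (Fᶜ : Set X₁) := lc_hasPFN hMA hκ ((mk_subtype_le _).trans hX) hh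
    have h2 : HasPFN X₁ := h1.of_compl_countable hF hFc
    exact ⟨h2.isDelta, fun X₂ _ h => h2.prod_isDelta h⟩
  · intro κ hκ hMA X _ _ hX hh
    exact sigma_closed_discrete hMA hκ hX hh
  · intro X₁ _ _ _ F hF hFc h
    have h2 : HasPFN X₁ := h.of_compl_countable hF hFc
    exact ⟨h2, fun X₂ _ h => h2.prod_isDelta h⟩

end Pool.Agent.Results.MP_055c40_gt.UnderMartin
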